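import Mathlib
set_option autoImplicit false

/-!
# Project RC: relatively cotorsion periodicity (MP_d608f2_al)

Definitions.
-/

namespace Q32.RC

universe u

section one

variable (A : Type u) [Ring A]

/-- Every extension of `F` by `N` splits (`Ext¹(F, N) = 0`). -/
def ExtZ (F N : Type u) [AddCommGroup F] [Module A F] [AddCommGroup N] [Module A N] : Prop :=
  ∀ (E : Type u) [AddCommGroup E] [Module A E] (i : N →ₗ[A] E) (p : E →ₗ[A] F),
    Function.Injective i → Function.Surjective p → LinearMap.range i = LinearMap.ker p →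
    ∃ s : F →ₗ[A] E, p ∘ₗ s = LinearMap.id

/-- Flatness of a left module over a (noncommutative) ring, by the equational criterion. -/
def IsFlat (F : Type u) [AddCommGroup F] [Module A F] : Prop :=
  ∀ (n : ℕ) (r : Fin n → A) (x : Fin n → F), ∑ i, r i • x i = 0 →
    ∃ (m : ℕ) (b : Fin n → Fin m → A) (y : Fin m → F), (∀ i, x i = ∑ j, b i j • y j) ∧
      ∀ j, ∑ i, r i * b i j = 0

/-- Every homomorphism from `K` to `N` extends to `P`. -/
def Exn {P : Type u} [AddCommGroup P] [Module A P] (K : Submodule A P) (N : Type u)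
    [AddCommGroup N] [Module A N] : Prop :=
  ∀ g : K →ₗ[A] N, ∃ h : P →ₗ[A] N, ∀ x : K, h x = g x

/-- Finite subsets of `K` are fixed by endomorphisms of `P` with range in `K`. -/
def FlatSub {P : Type u} [AddCommGroup P] [Module A P] (K : Submodule A P) : Prop :=
  ∀ S : Finset P, (∀ x ∈ S, x ∈ K) → ∃ φ : P →ₗ[A] P, (∀ x, φ x ∈ K) ∧ ∀ x ∈ S, φ x = x

/-- `k`-fold cosyzygies. -/
def Cosyz : ℕ → ∀ (M : Type u) [AddCommGroup M] [Module A M], Prop
  | 0 => fun _ _ _ => True
  | k + 1 => fun M _ _ => ∃ (N I : Type u) (_ : AddCommGroup N) (_ : Module A N)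
      (_ : AddCommGroup I) (_ : Module A I) (i : N →ₗ[A] I) (p : I →ₗ[A] M),
      Module.Injective A I ∧ Function.Injective i ∧ Function.Surjective p ∧
      LinearMap.range i = LinearMap.ker p ∧ Cosyz k N

end one

section two

variable {R A : Type u} [Ring R] [Ring A] (f : R →+* A)

/-- The underlying left `R`-module of `F` is projective (a retract of a free module). -/
def RProj (F : Type u) [AddCommGroup F] [Module A F] : Prop :=
  ∃ (X : Type u) (q : (X →₀ R) →+ F) (s : F →+ (X →₀ R)), (∀ (r : R) v, q (r • v) = f r • q v) ∧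
    (∀ (r : R) x, s (f r • x) = r • s x) ∧ ∀ x, q (s x) = x

/-- flat over `A` and projective over `R` -/
def Fcl (F : Type u) [AddCommGroup F] [Module A F] : Prop := IsFlat A F ∧ RProj f F

/-- `A/R`-cotorsion modules -/
def RelCot (C : Type u) [AddCommGroup C] [Module A C] : Prop :=
  ∀ (F : Type u) [AddCommGroup F] [Module A F], Fcl f F → ExtZ A F C

/-- the elements `γ g` generate `F` as a left `R`-module -/
def RGen {F : Type u} [AddCommGroup F] [Module A F] {G : Type u} (γ : G → F) : Prop :=
  ∀ x : F, ∃ c : G →₀ R, x = c.sum (fun g r => f r • γ g)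

/-- the kernel of the presentation given by `γ`, restricted to the coordinates in `J` -/
def KJ {F : Type u} [AddCommGroup F] [Module A F] {G : Type u} (γ : G → F) (J : Set G) :
    Submodule A (G →₀ A) :=
  LinearMap.ker (Finsupp.linearCombination A γ) ⊓ Finsupp.supported A A J

/-- the part of `F` generated by `J` -/
def FJ {F : Type u} [AddCommGroup F] [Module A F] {G : Type u} (γ : G → F) (J : Set G) :
    Submodule A F := Submodule.span A (γ '' J)

end two

/-- `J` is closed under `c`: for every finite set `S` of indices living over `J` the finite set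
`c S` is contained in `J`. -/
def ClosedUnder {T G : Type u} (c : Finset ((T × G) ⊕ G) → Finset G) (J : Set G) : Prop :=
  ∀ S : Finset ((T × G) ⊕ G), (∀ t g, Sum.inl (t, g) ∈ S → g ∈ J) → (∀ g, Sum.inr g ∈ S → g ∈ J) →
    ∀ g ∈ c S, g ∈ J

/-- A continuous increasing chain of subsets of `G` indexed by ordinals. -/
structure IsChainSets {G : Type u} (J : Ordinal.{u} → Set G) : Prop where
  mono : ∀ α β, α ≤ β → J α ⊆ J β
  cont : ∀ B : Set Ordinal.{u}, B.Nonempty → BddAbove B → ∀ x ∈ J (sSup B), ∃ α ∈ B, x ∈ J α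

end Q32.RC
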